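import Pool.Agent.Helper51.RP.Goals1

/-!
# Project RP (MP_fc6b1e_nt): rationality of the logarithms
-/

namespace Pool.Agent.Helper2.RP

open NumberField Polynomial Module TensorProduct Filter Topology Pool.Agent.Helper51.SigLeo
  Pool.Agent.Helper51.RP

section norms

variable {p : ℕ} [hp : Fact p.Prime] {k : Type} [NormedField k] {H : Type} [Field H]

/-- The absolute value of `H` given by an embedding in `k`. -/
noncomputable def av (τ : H →+* k) : AbsoluteValue H ℝ where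
  toFun x := ‖τ x‖
  map_mul' x y := by simp
  nonneg' x := norm_nonneg _
  eq_zero' x := by simp
  add_le' x y := by simpa using norm_add_le (τ x) (τ y)

lemma av_apply (τ : H →+* k) (x : H) : av τ x = ‖τ x‖ := rfl

lemma norm_p [NormedAlgebra ℚ_[p] k] : ‖(p : k)‖ = (p : ℝ)⁻¹ := by
  have h : (p : k) = algebraMap ℚ_[p] k (p : ℚ_[p]) := by simp
  rw [h, norm_algebraMap']
  exact Padic.norm_p

lemma av_eq_of_isEquiv [NormedAlgebra ℚ_[p] k] (σ τ : H →+* k) (h : (av σ).IsEquiv (av τ)) :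
    av σ = av τ := by
  obtain ⟨c, hc, h⟩ := AbsoluteValue.isEquiv_iff_exists_rpow_eq.1 h
  have h1 := congrFun h (p : H)
  have hp1 : 1 < (p : ℝ) := by exact_mod_cast hp.out.one_lt
  have hp0 : 0 < (p : ℝ) := by linarith
  simp only [av_apply, map_natCast, norm_p (p := p)] at h1
  have h2 : ((p : ℝ)⁻¹) ^ c = ((p : ℝ)⁻¹) ^ (1 : ℝ) := by rw [h1, Real.rpow_one]
  have h3 : c = 1 := (Real.rpow_right_inj (inv_pos.2 hp0) (by
    intro h; rw [inv_eq_one] at h; linarith)).1 h2
  ext x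
  have h4 := congrFun h x
  simpa [h3] using h4

lemma av_nontrivial [NormedAlgebra ℚ_[p] k] (τ : H →+* k) : (av τ).IsNontrivial := by
  have hp1 : 1 < (p : ℝ) := by exact_mod_cast hp.out.one_lt
  have h : av τ (p : H) = (p : ℝ)⁻¹ := by
    simp [av_apply, norm_p (p := p)]
  refine ⟨(p : H), ?_, ?_⟩
  · intro h0
    rw [h0, map_zero] at h
    have : (p : ℝ)⁻¹ ≠ 0 := by positivity
    exact this h.symm
  · rw [h]
    intro h; rw [inv_eq_one] at h; linarith

lemma norm_le_one [IsUltrametricDist k] {x : k} (hx : IsIntegral ℤ x) : ‖x‖ ≤ 1 := by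
  have h := Valuation.Integers.mem_of_integral (v := NormedField.valuation (K := k))
    (Valuation.integer.integers _) (hx.tower_top (A := (NormedField.valuation (K := k)).integer))
  rw [Valuation.mem_integer_iff] at h
  exact_mod_cast h

end norms

section units

variable {p : ℕ} [hp : Fact p.Prime] {k : Type} [NormedField k] [NormedAlgebra ℚ_[p] k]
  [IsUltrametricDist k] {H : Type} [Field H] [NumberField H]

include hp in
lemma exists_pow (u : (𝓞 H)ˣ) : ∃ q : ℕ, 0 < q ∧ ∀ τ : H →+* k,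
    ‖τ (((u ^ q : (𝓞 H)ˣ) : 𝓞 H) : H) - 1‖ < 1 := by
  have hp1 : 1 < (p : ℝ) := by exact_mod_cast hp.out.one_lt
  set I : Ideal (𝓞 H) := Ideal.span {(p : 𝓞 H)} with hI
  have hI0 : I ≠ ⊥ := by
    rw [hI, Ne, Ideal.span_singleton_eq_bot]
    exact_mod_cast hp.out.ne_zero
  have : Finite (𝓞 H ⧸ I) := Ideal.finiteQuotientOfFreeOfNeBot I hI0
  obtain ⟨q, hq, h⟩ := (isOfFinOrder_of_finite
    (Units.map ((Ideal.Quotient.mk I : 𝓞 H →+* 𝓞 H ⧸ I) : 𝓞 H →* 𝓞 H ⧸ I) u)).exists_pow_eq_one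
  refine ⟨q, hq, fun τ ↦ ?_⟩
  rw [← map_pow] at h
  have h1 : Ideal.Quotient.mk I ((u ^ q : (𝓞 H)ˣ) : 𝓞 H) = 1 := congrArg Units.val h
  have h2 : ((u ^ q : (𝓞 H)ˣ) : 𝓞 H) - 1 ∈ I := by
    rw [← Ideal.Quotient.eq, h1, map_one]
  rw [hI, Ideal.mem_span_singleton] at h2
  obtain ⟨y, hy⟩ := h2
  have h3 : τ (((u ^ q : (𝓞 H)ˣ) : 𝓞 H) : H) - 1 = (p : k) * τ (y : H) := by
    have := congrArg (fun z : 𝓞 H ↦ τ (z : H)) hy
    simpa using this
  rw [h3, norm_mul, norm_p (p := p)]
  have h4 : ‖τ (y : H)‖ ≤ 1 := norm_le_one ((RingOfIntegers.isIntegral_coe y).map τ.toIntAlgHom)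
  calc (p : ℝ)⁻¹ * ‖τ (y : H)‖ ≤ (p : ℝ)⁻¹ * 1 := by
        apply mul_le_mul_of_nonneg_left h4 (by positivity)
    _ < 1 := by rw [mul_one]; exact inv_lt_one_of_one_lt₀ hp1

end units

section vec

variable (p : ℕ) [hp : Fact p.Prime] (k : Type) [NormedField k] [NormedAlgebra ℚ_[p] k]
  (H : Type) [Field H]

/-- The vector of the images of `x` by all the embeddings. -/
noncomputable def vec : H →+* ((H →+* k) → k) := RingHom.pi (fun τ ↦ τ)

lemma vec_apply (x : H) (τ : H →+* k) : vec k H x τ = τ x := rfl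

/-- The span over `ℚ_p` of the vectors `vec x`. -/
noncomputable def WW : Submodule ℚ_[p] ((H →+* k) → k) :=
  Submodule.span ℚ_[p] (Set.range (vec k H))

variable {k H}

lemma vec_mem (x : H) : vec k H x ∈ WW p k H := Submodule.subset_span ⟨x, rfl⟩

lemma mul_mem_WW {v w : (H →+* k) → k} (hv : v ∈ WW p k H) (hw : w ∈ WW p k H) :
    v * w ∈ WW p k H := by
  have h := Submodule.mul_mem_mul hv hw
  rw [WW, Submodule.span_mul_span] at h
  refine Submodule.span_mono ?_ h
  rintro _ ⟨_, ⟨x, rfl⟩, _, ⟨y, rfl⟩, rfl⟩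
  exact ⟨x * y, map_mul _ _ _⟩

lemma vec_smul [CharZero H] (q : ℚ) (x : H) : vec k H (q • x) = (q : ℚ_[p]) • vec k H x := by
  ext τ
  rw [vec_apply, Pi.smul_apply, vec_apply, Algebra.smul_def, Algebra.smul_def, map_mul]
  simp

variable [NumberField H]

lemma WW_eq {n : ℕ} (b : Basis (Fin n) ℚ H) :
    Submodule.span ℚ_[p] (Set.range fun i ↦ vec k H (b i)) = WW p k H := by
  apply le_antisymm
  · rw [Submodule.span_le]
    rintro _ ⟨i, rfl⟩
    exact vec_mem p _
  · rw [WW, Submodule.span_le]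
    rintro _ ⟨x, rfl⟩
    rw [← b.sum_repr x, map_sum]
    refine Submodule.sum_mem _ fun i _ ↦ ?_
    rw [vec_smul p]
    exact Submodule.smul_mem _ _ (Submodule.subset_span ⟨i, rfl⟩)

lemma isClosed_WW : IsClosed (WW p k H : Set ((H →+* k) → k)) := by
  have : FiniteDimensional ℚ_[p] (WW p k H) := by
    rw [← WW_eq p (Module.finBasis ℚ H)]
    exact FiniteDimensional.span_of_finite _ (Set.finite_range _)
  exact (WW p k H).closed_of_finiteDimensional

lemma indep {n : ℕ} (ι : AlgebraicClosure ℚ →+* k) (b : Basis (Fin n) ℚ H) :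
    LinearIndependent k (fun i ↦ vec k H (b i)) := by
  classical
  rw [Fintype.linearIndependent_iff]
  intro g hg
  have hcard : Fintype.card (Fin n) = Fintype.card (H →ₐ[ℚ] AlgebraicClosure ℚ) := by
    rw [AlgHom.card, Module.finrank_eq_card_basis b]
  let e := Fintype.equivOfCardEq hcard
  have hdet : (Algebra.embeddingsMatrixReindex ℚ (AlgebraicClosure ℚ) b e).det ≠ 0 := by
    intro h0
    have h1 := Algebra.discr_eq_det_embeddingsMatrixReindex_pow_two ℚ (AlgebraicClosure ℚ) b e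
    rw [h0, zero_pow two_ne_zero] at h1
    have h2 := Algebra.discr_not_zero_of_basis ℚ b
    exact h2 ((map_eq_zero _).1 h1)
  have hdet' : ((Algebra.embeddingsMatrixReindex ℚ (AlgebraicClosure ℚ) b e).map ι).det ≠ 0 := by
    rw [← RingHom.mapMatrix_apply, ← RingHom.map_det]
    exact (map_ne_zero ι).2 hdet
  have hv : Matrix.vecMul g
      ((Algebra.embeddingsMatrixReindex ℚ (AlgebraicClosure ℚ) b e).map ι) = 0 := by
    ext j
    have h := congrFun hg (ι.comp (e j : H →+* AlgebraicClosure ℚ))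
    simp only [Finset.sum_apply, Pi.smul_apply, vec_apply, Pi.zero_apply] at h
    simpa [Matrix.vecMul, dotProduct, Algebra.embeddingsMatrixReindex,
      Algebra.embeddingsMatrix_apply] using h
  have := Matrix.eq_zero_of_vecMul_eq_zero hdet' hv
  intro i
  rw [this]; rfl

lemma ind_mem [IsUltrametricDist k] (T : Set (H →+* k)) (hT : PlaceClosed T) :
    (T.indicator 1 : (H →+* k) → k) ∈ WW p k H := by
  classical
  have : CharZero k := charZero_of_injective_algebraMap (algebraMap ℚ_[p] k).injective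
  rw [← SetLike.mem_coe, ← (isClosed_WW p (k := k) (H := H)).closure_eq, Metric.mem_closure_iff]
  intro ε hε
  let I := Set.range (av : (H →+* k) → AbsoluteValue H ℝ)
  have hIfin : Finite I := (Set.finite_range _).to_subtype
  have h1 : ∀ i : I, (i : AbsoluteValue H ℝ).IsNontrivial := by
    rintro ⟨_, τ, rfl⟩
    exact av_nontrivial (p := p) τ
  have h2 : Pairwise fun i j : I ↦ ¬ (i : AbsoluteValue H ℝ).IsEquiv (j : AbsoluteValue H ℝ) := by
    rintro ⟨_, τ, rfl⟩ ⟨_, σ, rfl⟩ hne he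
    exact hne (Subtype.ext (av_eq_of_isEquiv (p := p) τ σ he))
  let z : (i : I) → WithAbs (i : AbsoluteValue H ℝ) := fun i ↦
    WithAbs.toAbs _ (if ∃ τ ∈ T, av τ = (i : AbsoluteValue H ℝ) then 1 else 0)
  obtain ⟨y, hy⟩ := (AbsoluteValue.denseRange_algebraMap_pi h1 h2).exists_dist_lt z hε
  refine ⟨vec k H y, vec_mem p y, ?_⟩
  rw [dist_pi_lt_iff hε]
  intro τ
  have h3 := (dist_le_pi_dist z (algebraMap H ((i : I) → WithAbs (i : AbsoluteValue H ℝ)) y)
    ⟨av τ, τ, rfl⟩).trans_lt hy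
  have h4 : (∃ σ ∈ T, av σ = av τ) ↔ τ ∈ T := by
    constructor
    · rintro ⟨σ, hσ, h⟩
      exact (hT σ τ (fun x ↦ by rw [← av_apply, h, av_apply])).1 hσ
    · exact fun h ↦ ⟨τ, h, rfl⟩
  rw [dist_eq_norm, vec_apply]
  rw [dist_eq_norm] at h3
  have h5 : z ⟨av τ, τ, rfl⟩ - algebraMap H ((i : I) → WithAbs (i : AbsoluteValue H ℝ)) y
      ⟨av τ, τ, rfl⟩ = WithAbs.toAbs (av τ) ((if τ ∈ T then 1 else 0) - y) := by
    change WithAbs.toAbs (av τ) (if ∃ σ ∈ T, av σ = av τ then 1 else 0) -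
      WithAbs.toAbs (av τ) y = _
    simp only [h4, WithAbs.toAbs_sub]
  rw [h5, WithAbs.norm_toAbs_eq, av_apply, map_sub] at h3
  by_cases hτ : τ ∈ T
  · simpa [hτ] using h3
  · simpa [hτ] using h3

end vec

section main

variable {p : ℕ} [hp : Fact p.Prime] {k : Type} [NormedField k] [NormedAlgebra ℚ_[p] k]
  [IsUltrametricDist k] {H : Type} [Field H] [NumberField H]

lemma log_mem (L : IwasawaLog p k) (u : Additive (𝓞 H)ˣ) :
    (fun τ : H →+* k ↦ logUnits L τ u) ∈ WW p k H := by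
  obtain ⟨q, hq, h⟩ := exists_pow (p := p) (k := k) u.toMul
  have h1 : (fun τ : H →+* k ↦ logUnits L τ (q • u)) ∈ WW p k H := by
    have hsum : HasSum (fun n : ℕ ↦ vec k H ((-1) ^ n *
        ((((u.toMul ^ q : (𝓞 H)ˣ) : 𝓞 H) : H) - 1) ^ (n + 1) / (n + 1)))
        (fun τ : H →+* k ↦ logUnits L τ (q • u)) := by
      rw [Pi.hasSum]
      intro τ
      have h2 := L.hasSum (Units.map ((τ.comp (algebraMap (𝓞 H) H) : 𝓞 H →+* k) : 𝓞 H →* k)
        (u.toMul ^ q)) (h τ)
      convert h2 using 2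
      · rw [vec_apply]
        simp
      · rfl
    refine (isClosed_WW p).mem_of_tendsto hsum (Eventually.of_forall fun s ↦ ?_)
    exact Submodule.sum_mem _ fun n _ ↦ vec_mem p _
  have h2 : (fun τ : H →+* k ↦ logUnits L τ u) =
      ((q : ℚ_[p])⁻¹) • (fun τ : H →+* k ↦ logUnits L τ (q • u)) := by
    ext τ
    have hq0 : (q : ℚ_[p]) ≠ 0 := by exact_mod_cast hq.ne'
    rw [Pi.smul_apply, map_nsmul, ← Nat.cast_smul_eq_nsmul ℚ_[p], smul_smul, inv_mul_cancel₀ hq0,
      one_smul]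
  rw [h2]
  exact Submodule.smul_mem _ _ h1

end main

/-- **S_RAT**: the rationality of the logarithms. -/
theorem s_rat : S_RAT := by
  intro p hp k _ _ _ _ ⟨ι⟩ L H _ _ T hT
  classical
  let n := finrank ℚ H
  let b : Basis (Fin n) ℚ H := Module.finBasis ℚ H
  have hli := indep ι b
  have hliQ : LinearIndependent ℚ_[p] (fun i ↦ vec k H (b i)) := by
    refine hli.restrict_scalars ?_
    intro x y hxy
    simpa [Algebra.smul_def] using hxy
  let bW := Basis.span hliQ
  let e : (H →+* k) → k := T.indicator 1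
  have hmem : ∀ u : Additive (𝓞 H)ˣ, e * (fun τ : H →+* k ↦ logUnits L τ u) ∈
      Submodule.span ℚ_[p] (Set.range fun i ↦ vec k H (b i)) := by
    intro u
    rw [WW_eq p b]
    exact mul_mem_WW p (ind_mem p T hT) (log_mem L u)
  let f : Fin n → (Additive (𝓞 H)ˣ →+ ℚ_[p]) := fun i ↦
    AddMonoidHom.mk' (fun u ↦ bW.repr ⟨e * (fun τ : H →+* k ↦ logUnits L τ u), hmem u⟩ i) (by
      intro u v
      rw [← Finsupp.add_apply, ← map_add]
      congr 2
      apply Subtype.ext
      ext τ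
      simp [mul_add])
  have key : ∀ (u : Additive (𝓞 H)ˣ) (τ : H →+* k),
      e τ * logUnits L τ u = ∑ i, f i u • τ (b i) := by
    intro u τ
    have h := congrArg (fun w : Submodule.span ℚ_[p] (Set.range fun i ↦ vec k H (b i)) ↦
      (w : (H →+* k) → k) τ)
      (bW.sum_repr ⟨e * (fun τ : H →+* k ↦ logUnits L τ u), hmem u⟩)
    simp only [bW, Submodule.coe_sum, Finset.sum_apply, Submodule.coe_smul, Basis.span_apply,
      Pi.smul_apply, Pi.mul_apply, vec_apply] at h
    exact h.symm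
  refine ⟨n, f, ?_, ?_⟩
  · intro z hz
    have h1 : ∀ (z : k ⊗[ℤ] Additive (𝓞 H)ˣ) (τ : H →+* k),
        ∑ i, extHom (((algebraMap ℚ_[p] k : ℚ_[p] →+* k) : ℚ_[p] →+ k).comp (f i)) z * τ (b i) =
          e τ * extHom (logUnits L τ) z := by
      intro z τ
      induction z using TensorProduct.induction_on with
      | zero => simp
      | tmul c u =>
        simp only [extHom, LinearMap.liftBaseChange_tmul]
        have := key u τ
        have h5 : ∀ i, (((algebraMap ℚ_[p] k : ℚ_[p] →+* k) : ℚ_[p] →+ k).comp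
            (f i)).toIntLinearMap u = algebraMap ℚ_[p] k (f i u) := fun i ↦ rfl
        have h6 : (logUnits L τ).toIntLinearMap u = logUnits L τ u := rfl
        simp only [h5, h6, smul_eq_mul]
        rw [mul_left_comm, this, Finset.mul_sum]
        refine Finset.sum_congr rfl fun i _ ↦ ?_
        rw [Algebra.smul_def, mul_assoc]
      | add x y hx hy => simp only [map_add, add_mul, mul_add, Finset.sum_add_distrib, hx, hy]
    have h2 : ∑ i, extHom (((algebraMap ℚ_[p] k : ℚ_[p] →+* k) : ℚ_[p] →+ k).comp (f i)) z •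
        vec k H (b i) = 0 := by
      ext τ
      simp only [Finset.sum_apply, Pi.smul_apply, vec_apply, smul_eq_mul, Pi.zero_apply]
      rw [h1]
      by_cases hτ : τ ∈ T
      · rw [hz τ hτ, mul_zero]
      · simp [e, hτ]
    exact Fintype.linearIndependent_iff.1 hli _ h2
  · intro τ hτ
    refine ⟨fun i ↦ τ (b i), fun u ↦ ?_⟩
    rw [← key u τ]
    simp [e, hτ]

end Pool.Agent.Helper2.RP
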